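import Mathlib

/-! # Dyadic boxes and cells -/

set_option autoImplicit false

namespace Pool.Agent.Helper29.Q

open Finset

/-- the dyadic exponent of a number `≤ exp L` -/
theorem log2_le {L : ℝ} (_hL : 0 ≤ L) {s : ℕ} (hs : 1 ≤ s) (h : (s : ℝ) ≤ Real.exp L) :
    Nat.log 2 s ≤ ⌊2 * L⌋₊ := by
  apply Nat.le_floor
  have h1 : (2 : ℕ) ^ Nat.log 2 s ≤ s := Nat.pow_log_le_self 2 (by omega)
  have h2 : ((2 : ℝ)) ^ Nat.log 2 s ≤ Real.exp L := le_trans (by exact_mod_cast h1) h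
  have h3 : Real.exp (1 / 2 * (Nat.log 2 s : ℝ)) ≤ 2 ^ Nat.log 2 s := by
    rw [mul_comm, Real.exp_nat_mul]
    gcongr
    have := Real.exp_bound_div_one_sub_of_interval (x := 1 / 2) (by norm_num) (by norm_num)
    linarith
  have h4 := Real.exp_le_exp.1 (h3.trans h2)
  linarith

/-- the number of dyadic exponents -/
theorem card_range_le {L : ℝ} (hL : 0 ≤ L) : ((range (⌊2 * L⌋₊ + 1)).card : ℝ) ≤ 2 * L + 2 := by
  rw [Finset.card_range]
  push_cast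
  have := Nat.floor_le (by positivity : (0 : ℝ) ≤ 2 * L)
  linarith

theorem lt_dy {s : ℕ} (_hs : 1 ≤ s) : (s : ℝ) < 2 * 2 ^ Nat.log 2 s := by
  have := Nat.lt_pow_succ_log_self (b := 2) one_lt_two s
  rw [pow_succ] at this
  have h : (s : ℝ) < 2 ^ Nat.log 2 s * 2 := by exact_mod_cast this
  linarith

theorem dy_le {s : ℕ} (hs : 1 ≤ s) : (2 : ℝ) ^ Nat.log 2 s ≤ s := by
  exact_mod_cast Nat.pow_log_le_self 2 (by omega : s ≠ 0)

/-- two coordinates -/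
theorem cell2 (h : ℕ) (hh : 1 ≤ h) (L A : ℝ) (hL : 0 ≤ L) (hA : 0 ≤ A) (S : Finset (ℕ × ℕ))
    (hS : ∀ P ∈ S, 1 ≤ P.1 ∧ 1 ≤ P.2 ∧ Nat.Coprime P.1 P.2 ∧ (P.1 : ℝ) ≤ Real.exp L ∧
      (P.2 : ℝ) ≤ Real.exp L ∧ (P.1 : ℝ) * P.2 ≤ A)
    (hd : ∀ P ∈ S, ∀ Q ∈ S, (h : ℤ) ∣ (P.1 : ℤ) * Q.2 - Q.1 * P.2) :
    (S.card : ℝ) ≤ (2 * L + 2) ^ 2 * (1 + 8 * A / h) := by
  have hpos : (0 : ℝ) < h := by exact_mod_cast hh
  let code : ℕ × ℕ → ℕ × ℕ × ℕ := fun P => (Nat.log 2 P.1, Nat.log 2 P.2,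
    ⌊(P.1 : ℝ) / P.2 * (4 * (2 ^ Nat.log 2 P.2) ^ 2 / h)⌋₊)
  let T : Finset (ℕ × ℕ × ℕ) := range (⌊2 * L⌋₊ + 1) ×ˢ (range (⌊2 * L⌋₊ + 1) ×ˢ
    range (⌊8 * A / h⌋₊ + 1))
  have hmaps : ∀ P ∈ S, code P ∈ T := by
    intro P hP
    obtain ⟨h1, h2, h3, h4, h5, h6⟩ := hS P hP
    simp only [code, T, Finset.mem_product, Finset.mem_range, Nat.lt_succ_iff]
    refine ⟨log2_le hL h1 h4, log2_le hL h2 h5, Nat.floor_le_floor ?_⟩
    have hP2 : (0 : ℝ) < P.2 := by exact_mod_cast h2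
    have hT := dy_le h2
    have hTp : (0 : ℝ) < 2 ^ Nat.log 2 P.2 := by positivity
    have e1 : (P.1 : ℝ) / P.2 * (4 * (2 ^ Nat.log 2 P.2) ^ 2 / h) =
        4 * (P.1 * (2 ^ Nat.log 2 P.2) * (2 ^ Nat.log 2 P.2 / P.2)) / h := by
      field_simp
    rw [e1]
    have e2 : (2 : ℝ) ^ Nat.log 2 P.2 / P.2 ≤ 1 := by rw [div_le_one hP2]; exact hT
    have e3 : (P.1 : ℝ) * 2 ^ Nat.log 2 P.2 * (2 ^ Nat.log 2 P.2 / P.2) ≤
        (P.1 : ℝ) * P.2 * 1 := by gcongr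
    rw [div_le_div_iff_of_pos_right hpos]
    linarith
  have hinj : Set.InjOn code S := by
    intro P hP Q hQ hc
    obtain ⟨h1, h2, h3, h4, h5, h6⟩ := hS P hP
    obtain ⟨g1, g2, g3, g4, g5, g6⟩ := hS Q hQ
    simp only [code, Prod.mk.injEq] at hc
    obtain ⟨hc1, hc2, hc3⟩ := hc
    set T0 : ℝ := 2 ^ Nat.log 2 P.2 with hT0
    have hT0p : 0 < T0 := by positivity
    rw [← hc2] at hc3
    have hP2 : (0 : ℝ) < P.2 := by exact_mod_cast h2
    have hQ2 : (0 : ℝ) < Q.2 := by exact_mod_cast g2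
    have hPlt : (P.2 : ℝ) < 2 * T0 := lt_dy h2
    have hQlt : (Q.2 : ℝ) < 2 * T0 := by rw [hT0, hc2]; exact lt_dy g2
    have hab : |(P.1 : ℝ) / P.2 * (4 * T0 ^ 2 / h) - Q.1 / Q.2 * (4 * T0 ^ 2 / h)| < 1 := by
      have i1 := Nat.floor_le (by positivity : 0 ≤ (P.1 : ℝ) / P.2 * (4 * T0 ^ 2 / h))
      have i2 := Nat.lt_floor_add_one ((P.1 : ℝ) / P.2 * (4 * T0 ^ 2 / h))
      have i3 := Nat.floor_le (by positivity : 0 ≤ (Q.1 : ℝ) / Q.2 * (4 * T0 ^ 2 / h))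
      have i4 := Nat.lt_floor_add_one ((Q.1 : ℝ) / Q.2 * (4 * T0 ^ 2 / h))
      rw [hc3] at i1 i2
      rw [abs_lt]
      constructor <;> linarith
    have hdet : |((P.1 : ℤ) * Q.2 - Q.1 * P.2 : ℤ)| < (h : ℤ) := by
      have j1 : |(P.1 : ℝ) * Q.2 - Q.1 * P.2| < h := by
        have j2 : (P.1 : ℝ) * Q.2 - Q.1 * P.2 =
            ((P.1 : ℝ) / P.2 * (4 * T0 ^ 2 / h) - Q.1 / Q.2 * (4 * T0 ^ 2 / h)) *
              (h * (P.2 * Q.2 / (4 * T0 ^ 2))) := by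
          field_simp
        rw [j2, abs_mul, abs_of_nonneg (by positivity : (0 : ℝ) ≤ h * (P.2 * Q.2 / (4 * T0 ^ 2)))]
        have j3 : (P.2 : ℝ) * Q.2 / (4 * T0 ^ 2) ≤ 1 := by
          rw [div_le_one (by positivity)]
          nlinarith
        have j4 : (0 : ℝ) < P.2 * Q.2 / (4 * T0 ^ 2) := by positivity
        calc _ < 1 * (h * (P.2 * Q.2 / (4 * T0 ^ 2))) := by gcongr
          _ ≤ 1 * (h * 1) := by gcongr
          _ = h := by ring
      exact_mod_cast j1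
    have hz : (P.1 : ℤ) * Q.2 - Q.1 * P.2 = 0 := Int.eq_zero_of_abs_lt_dvd (hd P hP Q hQ) hdet
    have hz' : P.1 * Q.2 = Q.1 * P.2 := by exact_mod_cast sub_eq_zero.1 hz
    have k1 : P.1 ∣ Q.1 := h3.dvd_of_dvd_mul_right (Dvd.intro _ hz')
    have k2 : Q.1 ∣ P.1 := g3.dvd_of_dvd_mul_right (Dvd.intro _ hz'.symm)
    have k3 : P.1 = Q.1 := Nat.dvd_antisymm k1 k2
    rw [k3] at hz'
    exact Prod.ext k3 (Nat.eq_of_mul_eq_mul_left g1 hz').symm
  have hcard : S.card ≤ T.card := Finset.card_le_card_of_injOn code hmaps hinj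
  have hT : (T.card : ℝ) ≤ (2 * L + 2) ^ 2 * (1 + 8 * A / h) := by
    simp only [T, Finset.card_product, Nat.cast_mul]
    have h1 := card_range_le hL
    have h2 : ((range (⌊8 * A / h⌋₊ + 1)).card : ℝ) ≤ 1 + 8 * A / h := by
      rw [Finset.card_range]
      push_cast
      have := Nat.floor_le (by positivity : (0 : ℝ) ≤ 8 * A / h)
      linarith
    have h0 : (0 : ℝ) ≤ ((range (⌊2 * L⌋₊ + 1)).card : ℝ) := by positivity
    calc _ ≤ (2 * L + 2) * ((2 * L + 2) * (1 + 8 * A / h)) := by gcongr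
      _ = _ := by ring
  exact le_trans (by exact_mod_cast hcard) hT

/-- the determinant of three points -/
def det3 (P Q R : Fin 3 → ℕ) : ℤ :=
  (P 0 : ℤ) * (Q 1 * R 2 - Q 2 * R 1) - P 1 * (Q 0 * R 2 - Q 2 * R 0) + P 2 * (Q 0 * R 1 - Q 1 * R 0)

/-- three coordinates -/
theorem cell3 (M : ℕ) (hM : 1 ≤ M) (L A : ℝ) (hL : 0 ≤ L) (hA : 0 ≤ A) (S : Finset (Fin 3 → ℕ))
    (hS : ∀ P ∈ S, (∀ i, 1 ≤ P i ∧ (P i : ℝ) ≤ Real.exp L) ∧
      (∀ i j, i ≠ j → Nat.Coprime (P i) (P j)) ∧ (P 0 : ℝ) * P 1 * P 2 ≤ A)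
    (hd : ∀ P ∈ S, ∀ Q ∈ S, ∀ R ∈ S, (M : ℤ) ∣ det3 P Q R) (K : ℝ) (hK : 1 ≤ K)
    (hp : ∀ a : Fin 3 → ℤ, (∃ i, a i ≠ 0) → (∀ i, |(a i : ℝ)| ≤ 2 * Real.exp (2 * L)) →
      ((S.filter (fun P => ∑ i, a i * (P i : ℤ) = 0)).card : ℝ) ≤ K) :
    (S.card : ℝ) ≤ (2 * L + 2) ^ 3 * (1 + 64 * A / M) * K := by
  classical
  have hpos : (0 : ℝ) < M := by exact_mod_cast hM
  let code : (Fin 3 → ℕ) → ℕ × ℕ × ℕ × ℕ := fun P => (Nat.log 2 (P 0), Nat.log 2 (P 1),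
    Nat.log 2 (P 2), ⌊(P 0 : ℝ) / P 2 *
      (32 * 2 ^ Nat.log 2 (P 1) * (2 ^ Nat.log 2 (P 2)) ^ 2 / M)⌋₊)
  let T : Finset (ℕ × ℕ × ℕ × ℕ) := range (⌊2 * L⌋₊ + 1) ×ˢ (range (⌊2 * L⌋₊ + 1) ×ˢ
    (range (⌊2 * L⌋₊ + 1) ×ˢ range (⌊64 * A / M⌋₊ + 1)))
  have hmaps : ∀ P ∈ S, code P ∈ T := by
    intro P hP
    obtain ⟨h1, h2, h3⟩ := hS P hP
    simp only [code, T, Finset.mem_product, Finset.mem_range, Nat.lt_succ_iff]
    refine ⟨log2_le hL (h1 0).1 (h1 0).2, log2_le hL (h1 1).1 (h1 1).2,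
      log2_le hL (h1 2).1 (h1 2).2, Nat.floor_le_floor ?_⟩
    have hP2 : (0 : ℝ) < P 2 := by exact_mod_cast (h1 2).1
    have hT2 := dy_le (h1 2).1
    have hT1 := dy_le (h1 1).1
    have hTp : (0 : ℝ) < 2 ^ Nat.log 2 (P 2) := by positivity
    have e1 : (P 0 : ℝ) / P 2 * (32 * 2 ^ Nat.log 2 (P 1) * (2 ^ Nat.log 2 (P 2)) ^ 2 / M) =
        32 * (P 0 * 2 ^ Nat.log 2 (P 1) * 2 ^ Nat.log 2 (P 2) * (2 ^ Nat.log 2 (P 2) / P 2)) / M := by
      field_simp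
    rw [e1]
    have e2 : (2 : ℝ) ^ Nat.log 2 (P 2) / P 2 ≤ 1 := by rw [div_le_one hP2]; exact hT2
    have e3 : (P 0 : ℝ) * 2 ^ Nat.log 2 (P 1) * 2 ^ Nat.log 2 (P 2) *
        (2 ^ Nat.log 2 (P 2) / P 2) ≤ (P 0 : ℝ) * P 1 * P 2 * 1 := by gcongr
    rw [div_le_div_iff_of_pos_right hpos]
    linarith
  -- the points with a given code are on a plane
  have hfib : ∀ c ∈ T, ((S.filter (fun P => code P = c)).card : ℝ) ≤ K := by
    intro c _
    by_cases htwo : ∃ P ∈ S.filter (fun P => code P = c), ∃ Q ∈ S.filter (fun P => code P = c), P ≠ Q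
    swap
    · have : (S.filter (fun P => code P = c)).card ≤ 1 := by
        apply Finset.card_le_one.2
        intro P hP Q hQ
        by_contra hne
        exact htwo ⟨P, hP, Q, hQ, hne⟩
      exact le_trans (by exact_mod_cast this) hK
    obtain ⟨P, hP, Q, hQ, hne⟩ := htwo
    rw [Finset.mem_filter] at hP hQ
    obtain ⟨p1, p2, p3⟩ := hS P hP.1
    obtain ⟨q1, q2, q3⟩ := hS Q hQ.1
    let a : Fin 3 → ℤ := ![(P 1 : ℤ) * Q 2 - P 2 * Q 1, (P 2 : ℤ) * Q 0 - P 0 * Q 2,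
      (P 0 : ℤ) * Q 1 - P 1 * Q 0]
    have ha0 : ∃ i, a i ≠ 0 := by
      by_contra hc
      push Not at hc
      have c0 : (P 1 : ℤ) * Q 2 - P 2 * Q 1 = 0 := hc 0
      have c1 : (P 2 : ℤ) * Q 0 - P 0 * Q 2 = 0 := hc 1
      have c2 : (P 0 : ℤ) * Q 1 - P 1 * Q 0 = 0 := hc 2
      have d0 : P 1 * Q 2 = P 2 * Q 1 := by exact_mod_cast sub_eq_zero.1 c0
      have d1 : P 2 * Q 0 = P 0 * Q 2 := by exact_mod_cast sub_eq_zero.1 c1
      have d2 : P 0 * Q 1 = P 1 * Q 0 := by exact_mod_cast sub_eq_zero.1 c2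
      apply hne
      have k1 : P 1 = Q 1 := Nat.dvd_antisymm
        ((p2 1 2 (by decide)).dvd_of_dvd_mul_left (Dvd.intro _ d0))
        ((q2 1 2 (by decide)).dvd_of_dvd_mul_right (Dvd.intro_left _ d0.symm))
      have k2 : P 2 = Q 2 := by
        rw [k1, mul_comm] at d0
        exact (Nat.eq_of_mul_eq_mul_right (q1 1).1 d0).symm
      have k0 : P 0 = Q 0 := by
        rw [k1, mul_comm] at d2
        exact Nat.eq_of_mul_eq_mul_left (q1 1).1 d2
      funext i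
      fin_cases i
      · exact k0
      · exact k1
      · exact k2
    have hab : ∀ i, |(a i : ℝ)| ≤ 2 * Real.exp (2 * L) := by
      have key : ∀ u v u' v' : ℕ, (u : ℝ) ≤ Real.exp L → (v : ℝ) ≤ Real.exp L →
          (u' : ℝ) ≤ Real.exp L → (v' : ℝ) ≤ Real.exp L →
          |(u : ℝ) * v - u' * v'| ≤ 2 * Real.exp (2 * L) := by
        intro u v u' v' b1 b2 b3 b4
        have e2 : Real.exp (2 * L) = Real.exp L * Real.exp L := by rw [← Real.exp_add]; ring_nf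
        have f1 : (u : ℝ) * v ≤ Real.exp L * Real.exp L := by gcongr
        have f2 : (u' : ℝ) * v' ≤ Real.exp L * Real.exp L := by gcongr
        have f3 : (0 : ℝ) ≤ (u : ℝ) * v := by positivity
        have f4 : (0 : ℝ) ≤ (u' : ℝ) * v' := by positivity
        rw [e2, abs_le]
        constructor <;> nlinarith [Real.exp_pos L]
      intro i
      fin_cases i
      · simpa [a] using key _ _ _ _ (p1 1).2 (q1 2).2 (p1 2).2 (q1 1).2
      · simpa [a] using key _ _ _ _ (p1 2).2 (q1 0).2 (p1 0).2 (q1 2).2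
      · simpa [a] using key _ _ _ _ (p1 0).2 (q1 1).2 (p1 1).2 (q1 0).2
    refine le_trans ?_ (hp a ha0 hab)
    have hsub : S.filter (fun P => code P = c) ⊆ S.filter (fun P => ∑ i, a i * (P i : ℤ) = 0) := by
      intro R hR
      rw [Finset.mem_filter] at hR ⊢
      refine ⟨hR.1, ?_⟩
      obtain ⟨r1, r2, r3⟩ := hS R hR.1
      have hdet : det3 R P Q = 0 := by
        apply Int.eq_zero_of_abs_lt_dvd (hd R hR.1 P hP.1 Q hQ.1)
        have hcP := hP.2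
        have hcQ := hQ.2.trans hcP.symm
        have hcR := hR.2.trans hcP.symm
        simp only [code, Prod.mk.injEq] at hcQ hcR
        obtain ⟨u0, u1, u2, u3⟩ := hcQ
        obtain ⟨v0, v1, v2, v3⟩ := hcR
        rw [u1, u2] at u3
        rw [v1, v2] at v3
        set S1 : ℝ := 2 ^ Nat.log 2 (P 1) with hS1
        set S2 : ℝ := 2 ^ Nat.log 2 (P 2) with hS2
        have hS1p : 0 < S1 := by positivity
        have hS2p : 0 < S2 := by positivity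
        set δ : ℝ := 32 * S1 * S2 ^ 2 / M with hδ
        have hδp : 0 < δ := by positivity
        -- differences of the first ratios
        have hdiff : ∀ U V : Fin 3 → ℕ, ⌊(U 0 : ℝ) / U 2 * δ⌋₊ = ⌊(V 0 : ℝ) / V 2 * δ⌋₊ →
            |(U 0 : ℝ) / U 2 - V 0 / V 2| < 1 / δ := by
          intro U V hUV
          have i1 := Nat.floor_le (by positivity : 0 ≤ (U 0 : ℝ) / U 2 * δ)
          have i2 := Nat.lt_floor_add_one ((U 0 : ℝ) / U 2 * δ)
          have i3 := Nat.floor_le (by positivity : 0 ≤ (V 0 : ℝ) / V 2 * δ)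
          have i4 := Nat.lt_floor_add_one ((V 0 : ℝ) / V 2 * δ)
          rw [hUV] at i1 i2
          have hrw : |(U 0 : ℝ) / U 2 - V 0 / V 2| * δ = |((U 0 : ℝ) / U 2 - V 0 / V 2) * δ| := by
            rw [abs_mul, abs_of_pos hδp]
          rw [lt_div_iff₀ hδp, hrw, abs_lt]
          constructor <;> nlinarith
        have hx1 := hdiff P R v3.symm
        have hx2 := hdiff Q R (u3.trans v3.symm)
        have hR2 : (0 : ℝ) < R 2 := by exact_mod_cast (r1 2).1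
        have hP2 : (0 : ℝ) < P 2 := by exact_mod_cast (p1 2).1
        have hQ2 : (0 : ℝ) < Q 2 := by exact_mod_cast (q1 2).1
        have bR2 : (R 2 : ℝ) < 2 * S2 := by rw [hS2, ← v2]; exact lt_dy (r1 2).1
        have bP2 : (P 2 : ℝ) < 2 * S2 := lt_dy (p1 2).1
        have bQ2 : (Q 2 : ℝ) < 2 * S2 := by rw [hS2, ← u2]; exact lt_dy (q1 2).1
        have lR2 : S2 ≤ (R 2 : ℝ) := by rw [hS2, ← v2]; exact dy_le (r1 2).1
        have lP2 : S2 ≤ (P 2 : ℝ) := dy_le (p1 2).1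
        have lQ2 : S2 ≤ (Q 2 : ℝ) := by rw [hS2, ← u2]; exact dy_le (q1 2).1
        have bR1 : (R 1 : ℝ) < 2 * S1 := by rw [hS1, ← v1]; exact lt_dy (r1 1).1
        have bP1 : (P 1 : ℝ) < 2 * S1 := lt_dy (p1 1).1
        have bQ1 : (Q 1 : ℝ) < 2 * S1 := by rw [hS1, ← u1]; exact lt_dy (q1 1).1
        have hy : ∀ u v u' v' : ℝ, 0 ≤ u → u < 2 * S1 → S2 ≤ v → 0 ≤ u' → u' < 2 * S1 → S2 ≤ v' →
            |u / v - u' / v'| ≤ 2 * S1 / S2 := by
          intro u v u' v' w1 w2 w3 w4 w5 w6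
          have z1 : u / v ≤ 2 * S1 / S2 := by gcongr
          have z2 : u' / v' ≤ 2 * S1 / S2 := by gcongr
          have z3 : 0 ≤ u / v := div_nonneg w1 (hS2p.le.trans w3)
          have z4 : 0 ≤ u' / v' := div_nonneg w4 (hS2p.le.trans w6)
          rw [abs_le]; constructor <;> linarith
        have hy1 := hy (P 1) (P 2) (R 1) (R 2) (by positivity) bP1 lP2 (by positivity) bR1 lR2
        have hy2 := hy (Q 1) (Q 2) (R 1) (R 2) (by positivity) bQ1 lQ2 (by positivity) bR1 lR2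
        have hform : ((det3 R P Q : ℤ) : ℝ) = R 2 * P 2 * Q 2 *
            (((P 0 : ℝ) / P 2 - R 0 / R 2) * ((Q 1 : ℝ) / Q 2 - R 1 / R 2) -
              ((Q 0 : ℝ) / Q 2 - R 0 / R 2) * ((P 1 : ℝ) / P 2 - R 1 / R 2)) := by
          unfold det3
          push_cast
          field_simp
          ring
        have hlt : |((det3 R P Q : ℤ) : ℝ)| < M := by
          rw [hform, abs_mul, abs_of_pos (by positivity : (0 : ℝ) < R 2 * P 2 * Q 2)]
          have t1 : |((P 0 : ℝ) / P 2 - R 0 / R 2) * ((Q 1 : ℝ) / Q 2 - R 1 / R 2) -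
              ((Q 0 : ℝ) / Q 2 - R 0 / R 2) * ((P 1 : ℝ) / P 2 - R 1 / R 2)| <
              1 / δ * (2 * S1 / S2) + 1 / δ * (2 * S1 / S2) := by
            have hpos2 : 0 < 2 * S1 / S2 := by positivity
            refine lt_of_le_of_lt (abs_sub _ _) ?_
            rw [abs_mul, abs_mul]
            have s1 : |(P 0 : ℝ) / P 2 - R 0 / R 2| * |(Q 1 : ℝ) / Q 2 - R 1 / R 2| <
                1 / δ * (2 * S1 / S2) :=
              lt_of_le_of_lt (mul_le_mul_of_nonneg_left hy2 (abs_nonneg _))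
                (mul_lt_mul_of_pos_right hx1 hpos2)
            have s2 : |(Q 0 : ℝ) / Q 2 - R 0 / R 2| * |(P 1 : ℝ) / P 2 - R 1 / R 2| <
                1 / δ * (2 * S1 / S2) :=
              lt_of_le_of_lt (mul_le_mul_of_nonneg_left hy1 (abs_nonneg _))
                (mul_lt_mul_of_pos_right hx2 hpos2)
            linarith
          have t2 : (R 2 : ℝ) * P 2 * Q 2 ≤ 2 * S2 * (2 * S2) * (2 * S2) := by gcongr
          calc (R 2 : ℝ) * P 2 * Q 2 * _ < R 2 * P 2 * Q 2 *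
                (1 / δ * (2 * S1 / S2) + 1 / δ * (2 * S1 / S2)) := by gcongr
            _ ≤ 2 * S2 * (2 * S2) * (2 * S2) *
                (1 / δ * (2 * S1 / S2) + 1 / δ * (2 * S1 / S2)) := by gcongr
            _ = M := by rw [hδ]; field_simp; ring
        exact_mod_cast hlt
      rw [Fin.sum_univ_three]
      simp only [a, Matrix.cons_val_zero, Matrix.cons_val_one, Matrix.cons_val]
      unfold det3 at hdet
      linear_combination hdet
    exact_mod_cast Finset.card_le_card hsub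
  have hcard : S.card = ∑ c ∈ T, (S.filter (fun P => code P = c)).card :=
    Finset.card_eq_sum_card_fiberwise fun P hP => Finset.mem_coe.2 (hmaps P hP)
  rw [hcard]
  push_cast
  refine (Finset.sum_le_sum hfib).trans ?_
  rw [Finset.sum_const, nsmul_eq_mul]
  gcongr
  simp only [T, Finset.card_product, Nat.cast_mul]
  have h1 := card_range_le hL
  have h2 : ((range (⌊64 * A / M⌋₊ + 1)).card : ℝ) ≤ 1 + 64 * A / M := by
    rw [Finset.card_range]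
    push_cast
    have := Nat.floor_le (by positivity : (0 : ℝ) ≤ 64 * A / M)
    linarith
  calc _ ≤ (2 * L + 2) * ((2 * L + 2) * ((2 * L + 2) * (1 + 64 * A / M))) := by gcongr
    _ = _ := by ring

end Pool.Agent.Helper29.Q
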