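import Pool.Agent.Helper29.Q.Cell

/-! # Classes modulo primes and the determinant -/

set_option autoImplicit false

namespace Pool.Agent.Helper29.Q

open Finset

/-- splitting a set by functions with at most `e` values -/
theorem split {ι κ : Type} (S : Finset ι) (P : Finset κ) (β : κ → Type)
    (c : ∀ k, ι → β k) (e : ℕ) (hc : ∀ k ∈ P, ∃ V : Finset (β k), V.card ≤ e ∧ ∀ x ∈ S, c k x ∈ V)
    (K : ℝ) (hK : 0 ≤ K)
    (h : ∀ T ⊆ S, (∀ k ∈ P, ∀ x ∈ T, ∀ y ∈ T, c k x = c k y) → (T.card : ℝ) ≤ K) :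
    (S.card : ℝ) ≤ (e : ℝ) ^ P.card * K := by
  classical
  induction P using Finset.induction_on generalizing S with
  | empty =>
    simp only [Finset.card_empty, pow_zero, one_mul]
    exact h S subset_rfl (by simp)
  | insert a P ha ih =>
    obtain ⟨V, hV, hVS⟩ := hc a (Finset.mem_insert_self _ _)
    have h1 : S.card = ∑ v ∈ V, (S.filter (fun x => c a x = v)).card :=
      Finset.card_eq_sum_card_fiberwise fun x hx => Finset.mem_coe.2 (hVS x hx)
    have h2 : ∀ v ∈ V, ((S.filter (fun x => c a x = v)).card : ℝ) ≤ (e : ℝ) ^ P.card * K := by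
      intro v _
      apply ih (S.filter (fun x => c a x = v))
      · intro k hk
        obtain ⟨W, hW, hWS⟩ := hc k (Finset.mem_insert_of_mem hk)
        exact ⟨W, hW, fun x hx => hWS x (Finset.mem_filter.1 hx).1⟩
      · intro T hT hTc
        apply h T (hT.trans (Finset.filter_subset _ _))
        intro k hk x hx y hy
        rcases Finset.mem_insert.1 hk with rfl | hk
        · rw [(Finset.mem_filter.1 (hT hx)).2, (Finset.mem_filter.1 (hT hy)).2]
        · exact hTc k hk x hx y hy
    rw [h1]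
    push_cast
    refine (Finset.sum_le_sum h2).trans ?_
    rw [Finset.sum_const, nsmul_eq_mul, Finset.card_insert_of_notMem ha, pow_succ]
    have h3 : (V.card : ℝ) ≤ e := by exact_mod_cast hV
    have h4 : 0 ≤ (e : ℝ) ^ P.card * K := by positivity
    nlinarith

/-- the roots of `a X ^ e + b` modulo `p` -/
theorem exists_roots (p : ℕ) (hp : p.Prime) (e : ℕ) (he : 1 ≤ e) (a b : ZMod p) (ha : a ≠ 0) :
    ∃ V : Finset (ZMod p), V.card ≤ e ∧ ∀ ρ : ZMod p, a * ρ ^ e + b = 0 → ρ ∈ V := by
  classical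
  haveI : Fact p.Prime := ⟨hp⟩
  open Polynomial in
  have hdeg : (C a * X ^ e + C b : (ZMod p)[X]).natDegree = e := by
    rw [natDegree_add_C, natDegree_C_mul_X_pow e a ha]
  open Polynomial in
  have hne : (C a * X ^ e + C b : (ZMod p)[X]) ≠ 0 := by
    intro h
    rw [h, natDegree_zero] at hdeg
    omega
  open Polynomial in
  refine ⟨(C a * X ^ e + C b : (ZMod p)[X]).roots.toFinset, ?_, ?_⟩
  · refine (Multiset.toFinset_card_le _).trans ((Polynomial.card_roots' _).trans hdeg.le)
  · intro ρ hρ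
    rw [Multiset.mem_toFinset, Polynomial.mem_roots hne, Polynomial.IsRoot.def]
    simpa using hρ

/-- if modulo every prime `p ∣ M` two coordinates are proportional on `S` then `M` divides the
determinants -/
theorem dvd_det3 (M : ℕ) (hM : Squarefree M) (S : Finset (Fin 3 → ℕ))
    (h : ∀ p : ℕ, p.Prime → p ∣ M → ∃ (i i' : Fin 3) (ρ : ZMod p), i ≠ i' ∧
      ∀ P ∈ S, (P i : ZMod p) = ρ * P i') :
    ∀ P ∈ S, ∀ Q ∈ S, ∀ R ∈ S, (M : ℤ) ∣ det3 P Q R := by
  intro P hP Q hQ R hR
  rw [Int.natCast_dvd]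
  have hM0 : M ≠ 0 := hM.ne_zero
  have h1 : ∏ p ∈ M.primeFactors, p ∣ (det3 P Q R).natAbs := by
    apply Finset.prod_primes_dvd
    · intro p hp
      exact (Nat.prime_of_mem_primeFactors hp).prime
    · intro p hp
      obtain ⟨i, i', ρ, hne, hρ⟩ := h p (Nat.prime_of_mem_primeFactors hp)
        (Nat.dvd_of_mem_primeFactors hp)
      rw [← Int.natCast_dvd, ← ZMod.intCast_zmod_eq_zero_iff_dvd]
      have e1 := hρ P hP
      have e2 := hρ Q hQ
      have e3 := hρ R hR
      unfold det3
      push_cast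
      fin_cases i <;> fin_cases i' <;> first
        | exact absurd rfl hne
        | (simp only [Fin.zero_eta, Fin.mk_one, Fin.reduceFinMk, Fin.isValue] at e1 e2 e3
           rw [e1, e2, e3]
           ring)
  rwa [Nat.prod_primeFactors_of_squarefree hM] at h1

end Pool.Agent.Helper29.Q
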