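import Pool.Agent.Helper54.Q.Stm

/-! # Shared lemmas for the modules SA, AT, SB of `Pool.Agent.Helper54.Q` -/

set_option autoImplicit false

namespace Pool.Agent.Helper29.Q

open Finset
open Pool.Agent.Helper54.Q

theorem pow_card_le (e h : ℕ) (he : 1 ≤ e) (hh : h ≠ 0) :
    e ^ h.primeFactors.card ≤ (h ^ (e - 1)).divisors.card := by
  have h0 : h ^ (e - 1) ≠ 0 := pow_ne_zero _ hh
  rcases Nat.lt_or_ge e 2 with h2 | h2
  · obtain rfl : e = 1 := by omega
    simp
  rw [Nat.card_divisors h0, Nat.primeFactors_pow _ (by omega : e - 1 ≠ 0), ← Finset.prod_const]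
  apply Finset.prod_le_prod'
  intro p hp
  have : 1 ≤ h.factorization p := (Nat.prime_of_mem_primeFactors hp).factorization_pos_of_dvd hh
    (Nat.dvd_of_mem_primeFactors hp)
  rw [Nat.factorization_pow]
  simp only [Finsupp.smul_apply, smul_eq_mul]
  nlinarith [Nat.sub_add_cancel (by omega : 1 ≤ e)]

/-- `e ^ ω(h)` is small -/
theorem omega (hCN : S_CN) (e : ℕ) (ε : ℝ) (hε : 0 < ε) : ∃ D : ℝ, 0 < D ∧
    ∀ (L : ℝ) (h : ℕ), 0 ≤ L → h ≠ 0 → (h : ℝ) ≤ 16 * Real.exp (9 * L) →
      (e : ℝ) ^ h.primeFactors.card ≤ D * Real.exp (ε * L) := by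
  rcases Nat.lt_or_ge e 2 with h2 | h2
  · refine ⟨1, one_pos, fun L h hL _ _ => ?_⟩
    have h1 : (e : ℝ) ^ h.primeFactors.card ≤ 1 := pow_le_one₀ (by positivity) (by exact_mod_cast Nat.lt_succ_iff.1 h2)
    have h3 : (1 : ℝ) ≤ Real.exp (ε * L) := Real.one_le_exp (by positivity)
    linarith
  have he : (0 : ℝ) < 9 * e := by positivity
  obtain ⟨D, hD, hC⟩ := hCN (ε / (9 * e)) (by positivity)
  refine ⟨D * Real.exp (ε / (9 * e) * ((e - 1 : ℕ) * 3)), by positivity, fun L h hL hh hle => ?_⟩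
  have h16 : (16 : ℝ) ≤ Real.exp 3 := by
    have := Real.exp_one_gt_d9
    have h3 : Real.exp 3 = Real.exp 1 ^ 3 := by rw [← Real.exp_nat_mul]; norm_num
    rw [h3]
    calc (16 : ℝ) ≤ 2.7 ^ 3 := by norm_num
      _ ≤ _ := by gcongr; linarith
  have he1 : (1 : ℝ) ≤ ((e - 1 : ℕ) : ℝ) := by exact_mod_cast (by omega : 1 ≤ e - 1)
  have key := hC ((e - 1 : ℕ) * (3 + 9 * L)) h (((h ^ (e - 1)).divisors).image (fun d : ℕ => (d : ℤ)))
    (by positivity) hh (hle.trans (by
      gcongr
      nlinarith)) (by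
      intro a ha
      obtain ⟨d, hd, rfl⟩ := Finset.mem_image.1 ha
      have hdv := Nat.dvd_of_mem_divisors hd
      have hd0 : d ≠ 0 := (Nat.pos_of_mem_divisors hd).ne'
      refine ⟨by exact_mod_cast hd0, ?_, ?_⟩
      · have h1 : (d : ℝ) ≤ (h : ℝ) ^ (e - 1) := by
          exact_mod_cast Nat.le_of_dvd (pow_pos (Nat.pos_of_ne_zero hh) _) hdv
        have h2 : (h : ℝ) ≤ Real.exp (3 + 9 * L) := by
          rw [Real.exp_add]
          exact hle.trans (by gcongr)
        calc |((d : ℤ) : ℝ)| = d := by simp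
          _ ≤ (h : ℝ) ^ (e - 1) := h1
          _ ≤ Real.exp (3 + 9 * L) ^ (e - 1) := by gcongr
          _ = _ := by rw [← Real.exp_nat_mul]
      · intro p hp hpd
        have : p ∣ d := by exact_mod_cast hpd
        exact hp.dvd_of_dvd_pow (this.trans hdv))
  rw [Finset.card_image_of_injective _ Nat.cast_injective] at key
  have hcard : (e : ℝ) ^ h.primeFactors.card ≤ ((h ^ (e - 1)).divisors.card : ℝ) := by
    exact_mod_cast pow_card_le e h (by omega) hh
  refine hcard.trans (key.trans ?_)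
  rw [mul_assoc, ← Real.exp_add]
  have hee : ((e - 1 : ℕ) : ℝ) ≤ e := by exact_mod_cast Nat.sub_le _ _
  have h5 : ε / (9 * e) * (((e - 1 : ℕ) : ℝ) * (3 + 9 * L)) ≤
      ε / (9 * e) * ((e - 1 : ℕ) * 3) + ε * L := by
    have h6 : ε / (9 * e) * (((e - 1 : ℕ) : ℝ) * (9 * L)) ≤ ε / (9 * e) * ((e : ℝ) * (9 * L)) := by
      gcongr
    have h7 : ε / (9 * e) * ((e : ℝ) * (9 * L)) = ε * L := by
      field_simp
    nlinarith
  gcongr

/-- the `e`-th roots of a unit modulo `h`, for odd or squarefree `h` -/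
theorem roots_le (e : ℕ) (he : 1 ≤ e) (h : ℕ) (hh : h ≠ 0) (ho : Odd h ∨ Squarefree h)
    (κ : (ZMod h)ˣ) : Nat.card {x : (ZMod h)ˣ // x ^ e = κ} ≤ e ^ h.primeFactors.card := by
  induction h using Nat.recOnPosPrimePosCoprime with
  | prime_pow p n hp hn =>
    haveI : NeZero (p ^ n) := ⟨hh⟩
    haveI : IsCyclic (ZMod (p ^ n))ˣ := by
      rcases ho with ho | ho
      · exact ZMod.isCyclic_units_of_prime_pow p hp (by
          rintro rfl
          rcases Nat.even_or_odd (2 ^ n) with h | h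
          · exact (Nat.not_even_iff_odd.2 ho) h
          · exact (Nat.not_even_iff_odd.2 h) (Nat.even_pow.2 ⟨even_two, by omega⟩)) n
      · have : n = 1 := by
          by_contra hne
          exact hp.one_lt.ne' (Nat.isUnit_iff.1 (ho p (by
            rw [← pow_two]; exact pow_dvd_pow p (by omega))))
        subst this
        rw [pow_one]
        exact ZMod.isCyclic_units_prime hp
    rw [Nat.primeFactors_prime_pow (by omega) hp, Finset.card_singleton, pow_one]
    classical
    by_cases hex : ∃ x₀ : (ZMod (p ^ n))ˣ, x₀ ^ e = κ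
    · obtain ⟨x₀, hx₀⟩ := hex
      have h1 : Nat.card {x : (ZMod (p ^ n))ˣ // x ^ e = κ} ≤
          Nat.card {x : (ZMod (p ^ n))ˣ // x ^ e = 1} := by
        apply Nat.card_le_card_of_injective (fun x => ⟨x.1 * x₀⁻¹, by
          rw [mul_pow, x.2, inv_pow, hx₀, mul_inv_cancel]⟩)
        intro x y hxy
        exact Subtype.ext (mul_right_cancel (congrArg Subtype.val hxy))
      refine h1.trans ?_
      rw [Nat.card_eq_fintype_card, Fintype.card_subtype]
      exact IsCyclic.card_pow_eq_one_le (by omega)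
    · haveI : IsEmpty {x : (ZMod (p ^ n))ˣ // x ^ e = κ} := ⟨fun x => hex ⟨x.1, x.2⟩⟩
      simp
  | zero => exact absurd rfl hh
  | one =>
    haveI : Subsingleton (ZMod 1)ˣ := inferInstance
    simp only [Nat.primeFactors_one, Finset.card_empty, pow_zero]
    exact Finite.card_le_one_iff_subsingleton.2 inferInstance
  | coprime a b ha hb hab iha ihb =>
    have ha0 : a ≠ 0 := by omega
    have hb0 : b ≠ 0 := by omega
    haveI : NeZero a := ⟨ha0⟩
    haveI : NeZero b := ⟨hb0⟩
    have hoa : Odd a ∨ Squarefree a := by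
      rcases ho with ho | ho
      · exact Or.inl (Nat.odd_mul.1 ho).1
      · exact Or.inr (ho.squarefree_of_dvd (Dvd.intro _ rfl))
    have hob : Odd b ∨ Squarefree b := by
      rcases ho with ho | ho
      · exact Or.inl (Nat.odd_mul.1 ho).2
      · exact Or.inr (ho.squarefree_of_dvd (Dvd.intro_left _ rfl))
    let E : (ZMod (a * b))ˣ ≃* (ZMod a)ˣ × (ZMod b)ˣ :=
      (Units.mapEquiv (ZMod.chineseRemainder hab).toMulEquiv).trans MulEquiv.prodUnits
    have h1 : Nat.card {x : (ZMod (a * b))ˣ // x ^ e = κ} ≤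
        Nat.card ({x : (ZMod a)ˣ // x ^ e = (E κ).1} × {x : (ZMod b)ˣ // x ^ e = (E κ).2}) := by
      apply Nat.card_le_card_of_injective (fun x =>
        (⟨(E x.1).1, by rw [← Prod.pow_fst, ← map_pow, x.2]⟩,
          ⟨(E x.1).2, by rw [← Prod.pow_snd, ← map_pow, x.2]⟩))
      intro x y hxy
      have h2 := congrArg (fun z => (z.1.1, z.2.1)) hxy
      exact Subtype.ext (E.injective (Prod.ext (congrArg Prod.fst h2) (congrArg Prod.snd h2)))
    rw [Nat.card_prod] at h1
    refine h1.trans ?_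
    rw [hab.primeFactors_mul, Finset.card_union_of_disjoint hab.disjoint_primeFactors, pow_add]
    exact Nat.mul_le_mul (iha ha0 hoa _) (ihb hb0 hob _)

end Pool.Agent.Helper29.Q
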