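import Pool.Agent.Helper54.Q.Stm

/-! # Shared lemmas for the modules SA, AT, SB of `Pool.Agent.Helper54.Q` -/

set_option autoImplicit false

namespace Pool.Agent.Helper29.Q

open Finset
open Pool.Agent.Helper54.Q

open Classical in
/-- the product of the primes `p` with `Q (v p)` -/
noncomputable def pr (Q : (Fin 4 → ℕ) → Prop) (x : Fin 4 → ℤ) : ℕ :=
  ∏ p ∈ (PP x).filter (fun p => Q (vl x p)), p

theorem mem_PP {x : Fin 4 → ℤ} (hx : Adm x) {p : ℕ} : p ∈ PP x ↔ p.Prime ∧ ∃ i, vl x p i ≠ 0 := by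
  simp only [PP, Finset.mem_biUnion, Finset.mem_univ, true_and, Nat.mem_primeFactors, vl]
  constructor
  · rintro ⟨i, h1, h2, h3⟩
    exact ⟨h1, i, (h1.factorization_pos_of_dvd h3 h2).ne'⟩
  · rintro ⟨h1, i, h2⟩
    have h3 : (x i).natAbs ≠ 0 := Int.natAbs_ne_zero.2 (hx.ne i)
    exact ⟨i, h1, Nat.dvd_of_factorization_pos h2, h3⟩

theorem prime_of_mem {x : Fin 4 → ℤ} {p : ℕ} (h : p ∈ PP x) : p.Prime := by
  simp only [PP, Finset.mem_biUnion, Nat.mem_primeFactors] at h
  exact h.choose_spec.2.1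

theorem vl_ne_zero {x : Fin 4 → ℤ} (hx : Adm x) {p : ℕ} (hp : p.Prime) (i : Fin 4) :
    vl x p i ≠ 0 ↔ (p : ℤ) ∣ x i := by
  rw [Int.natCast_dvd]
  constructor
  · exact fun h => Nat.dvd_of_factorization_pos h
  · exact fun h => (hp.factorization_pos_of_dvd (Int.natAbs_ne_zero.2 (hx.ne i)) h).ne'

/-- at most two exponents are not zero -/
theorem two {x : Fin 4 → ℤ} (hx : Adm x) {p : ℕ} (hp : p.Prime) {i j k : Fin 4} (hij : i ≠ j)
    (hik : i ≠ k) (hjk : j ≠ k) (hi : vl x p i ≠ 0) (hj : vl x p j ≠ 0) : vl x p k = 0 := by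
  by_contra hk
  rw [vl_ne_zero hx hp] at hi hj
  rw [← ne_eq, vl_ne_zero hx hp] at hk
  obtain ⟨m, hm⟩ := hx.prim p hp
  apply hm
  have hmi : m ≠ i := by rintro rfl; exact hm hi
  have hmj : m ≠ j := by rintro rfl; exact hm hj
  have hmk : m ≠ k := by rintro rfl; exact hm hk
  have hs : x m = -(x i + x j + x k) := by
    have h := hx.sum
    have h4 : (univ : Finset (Fin 4)) = {m, i, j, k} := by
      apply Finset.eq_of_superset_of_card_ge (Finset.subset_univ _)
      rw [Finset.card_univ, Fintype.card_fin]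
      rw [Finset.card_insert_of_notMem (by simp [hmi, hmj, hmk]),
        Finset.card_insert_of_notMem (by simp [hij, hik]),
        Finset.card_insert_of_notMem (by simp [hjk]), Finset.card_singleton]
    rw [h4, Finset.sum_insert (by simp [hmi, hmj, hmk]), Finset.sum_insert (by simp [hij, hik]),
      Finset.sum_insert (by simp [hjk]), Finset.sum_singleton] at h
    linarith
  rw [hs]
  exact (dvd_neg).2 (dvd_add (dvd_add hi hj) hk)

theorem pr_ne_zero (Q : (Fin 4 → ℕ) → Prop) (x : Fin 4 → ℤ) : pr Q x ≠ 0 := by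
  classical
  unfold pr
  refine Finset.prod_ne_zero_iff.2 fun p hp => ?_
  exact (prime_of_mem (Finset.mem_filter.1 hp).1).ne_zero

theorem log_pr (Q : (Fin 4 → ℕ) → Prop) (x : Fin 4 → ℤ) : Real.log (pr Q x) = R Q x := by
  classical
  unfold pr R W
  rw [Nat.cast_prod, Real.log_prod]
  · simp
  · intro p hp
    exact_mod_cast (prime_of_mem (Finset.mem_filter.1 hp).1).ne_zero

theorem pr_eq_exp (Q : (Fin 4 → ℕ) → Prop) (x : Fin 4 → ℤ) : (pr Q x : ℝ) = Real.exp (R Q x) := by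
  rw [← log_pr, Real.exp_log]
  exact_mod_cast Nat.pos_of_ne_zero (pr_ne_zero Q x)

theorem prime_dvd_pr (Q : (Fin 4 → ℕ) → Prop) (x : Fin 4 → ℤ) {p : ℕ} (hp : p.Prime) :
    p ∣ pr Q x ↔ p ∈ PP x ∧ Q (vl x p) := by
  classical
  unfold pr
  rw [Prime.dvd_finsetProd_iff hp.prime]
  constructor
  · rintro ⟨q, hq, hpq⟩
    rw [Finset.mem_filter] at hq
    rw [(Nat.prime_dvd_prime_iff_eq hp (prime_of_mem hq.1)).1 hpq]
    exact hq
  · exact fun h => ⟨p, Finset.mem_filter.2 h, dvd_rfl⟩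

theorem pr_squarefree (Q : (Fin 4 → ℕ) → Prop) (x : Fin 4 → ℤ) : Squarefree (pr Q x) := by
  classical
  unfold pr
  apply Finset.squarefree_prod_of_pairwise_isCoprime
  · intro p hp q hq hpq
    rw [Finset.mem_coe, Finset.mem_filter] at hp hq
    simp only [Function.onFun]
    exact Nat.coprime_iff_isRelPrime.1
      ((Nat.coprime_primes (prime_of_mem hp.1) (prime_of_mem hq.1)).2 hpq)
  · intro p hp
    exact (prime_of_mem (Finset.mem_filter.1 hp).1).squarefree

theorem pr_coprime (Q Q' : (Fin 4 → ℕ) → Prop) (x : Fin 4 → ℤ)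
    (h : ∀ p ∈ PP x, ¬ (Q (vl x p) ∧ Q' (vl x p))) : Nat.Coprime (pr Q x) (pr Q' x) := by
  refine Nat.Coprime.symm (Nat.coprime_of_dvd fun p hp h1 h2 => ?_)
  rw [prime_dvd_pr _ _ hp] at h1 h2
  exact h p h1.1 ⟨h2.2, h1.2⟩

/-- the factorization of the product of the selected primes -/
theorem factorization_pr (Q : (Fin 4 → ℕ) → Prop) (x : Fin 4 → ℤ) (p : ℕ) (hp : p.Prime)
    (h : p ∈ PP x ∧ Q (vl x p)) : (pr Q x).factorization p = 1 := by
  have h1 : 1 ≤ (pr Q x).factorization p :=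
    (hp.factorization_pos_of_dvd (pr_ne_zero Q x) ((prime_dvd_pr Q x hp).2 h))
  have h2 := (Nat.squarefree_iff_factorization_le_one (pr_ne_zero Q x)).1 (pr_squarefree Q x) p
  omega

/-- `x i = α * s ^ e`, `s` the product of the selected primes (their exponent in `x i` is `e`) -/
theorem decomp {x : Fin 4 → ℤ} (hx : Adm x) (i : Fin 4) (e : ℕ) (Q : (Fin 4 → ℕ) → Prop)
    (hQ : ∀ p ∈ PP x, Q (vl x p) → vl x p i = e) :
    ∃ α : ℤ, x i = α * (pr Q x : ℤ) ^ e ∧ α ≠ 0 ∧ |(α : ℝ)| ≤ |(x i : ℝ)| ∧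
      ∀ p : ℕ, p.Prime → (p : ℤ) ∣ α → p ∈ PP x ∧ ¬ Q (vl x p) ∧ vl x p i ≠ 0 := by
  have hn : (x i).natAbs ≠ 0 := Int.natAbs_ne_zero.2 (hx.ne i)
  have hdv : (pr Q x) ^ e ∣ (x i).natAbs := by
    rw [← Nat.factorization_le_iff_dvd (pow_ne_zero _ (pr_ne_zero Q x)) hn]
    intro p
    rw [Nat.factorization_pow]
    by_cases hp : p.Prime
    · by_cases h : p ∣ pr Q x
      · have h' := (prime_dvd_pr Q x hp).1 h
        simp only [Finsupp.smul_apply, smul_eq_mul]
        rw [factorization_pr Q x p hp h', mul_one]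
        exact (hQ p h'.1 h'.2).ge
      · simp [Nat.factorization_eq_zero_of_not_dvd h]
    · simp [Nat.factorization_eq_zero_of_not_prime _ hp]
  have hdz : ((pr Q x : ℤ)) ^ e ∣ x i := by
    have : ((pr Q x ^ e : ℕ) : ℤ) ∣ x i := Int.natCast_dvd.2 hdv
    rwa [Nat.cast_pow] at this
  obtain ⟨α, hα⟩ := hdz
  have hα0 : α ≠ 0 := by
    rintro rfl
    exact hx.ne i (by rw [hα, mul_zero])
  refine ⟨α, by rw [hα]; ring, hα0, ?_, ?_⟩
  · rw [hα]
    push_cast
    rw [abs_mul, abs_of_nonneg (by positivity : (0 : ℝ) ≤ (pr Q x : ℝ) ^ e)]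
    have h1 : (1 : ℝ) ≤ (pr Q x : ℝ) ^ e := one_le_pow₀ (by
      exact_mod_cast Nat.one_le_iff_ne_zero.2 (pr_ne_zero Q x))
    nlinarith [abs_nonneg (α : ℝ)]
  · intro p hp hpα
    have hxi : (p : ℤ) ∣ x i := by rw [hα]; exact hpα.mul_left _
    have hv : vl x p i ≠ 0 := (vl_ne_zero hx hp i).2 hxi
    have hPP : p ∈ PP x := (mem_PP hx).2 ⟨hp, i, hv⟩
    refine ⟨hPP, fun hq => ?_, hv⟩
    have h1 := hQ p hPP hq
    have h2 : (x i).natAbs = pr Q x ^ e * α.natAbs := by
      rw [hα, Int.natAbs_mul, Int.natAbs_pow, Int.natAbs_natCast]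
    have h3 : (x i).natAbs.factorization p = e + α.natAbs.factorization p := by
      rw [h2, Nat.factorization_mul (pow_ne_zero _ (pr_ne_zero Q x)) (Int.natAbs_ne_zero.2 hα0),
        Nat.factorization_pow]
      simp only [Finsupp.add_apply, Finsupp.smul_apply, smul_eq_mul]
      rw [factorization_pr Q x p hp ⟨hPP, hq⟩, mul_one]
    have h4 : 1 ≤ α.natAbs.factorization p :=
      hp.factorization_pos_of_dvd (Int.natAbs_ne_zero.2 hα0) (Int.natCast_dvd.1 hpα)
    unfold vl at h1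
    omega

/-- the sum over all primes: at most `4 L` -/
theorem pr_le {x : Fin 4 → ℤ} (hx : Adm x) (L : ℝ) (hL : 0 ≤ L)
    (h : ∀ i, |(x i : ℝ)| ≤ Real.exp L) (Q : (Fin 4 → ℕ) → Prop) :
    (pr Q x : ℝ) ≤ Real.exp (4 * L) := by
  have hdv : pr Q x ∣ ∏ i, (x i).natAbs := by
    classical
    unfold pr
    apply Finset.prod_primes_dvd
    · intro p hp
      exact (prime_of_mem (Finset.mem_filter.1 hp).1).prime
    · intro p hp
      obtain ⟨hp1, i, hi⟩ := (mem_PP hx).1 (Finset.mem_filter.1 hp).1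
      rw [vl_ne_zero hx hp1, Int.natCast_dvd] at hi
      exact hi.trans (Finset.dvd_prod_of_mem _ (Finset.mem_univ i))
  have h1 : pr Q x ≤ ∏ i, (x i).natAbs := Nat.le_of_dvd (Nat.pos_of_ne_zero
    (Finset.prod_ne_zero_iff.2 fun i _ => Int.natAbs_ne_zero.2 (hx.ne i))) hdv
  calc (pr Q x : ℝ) ≤ ((∏ i, (x i).natAbs : ℕ) : ℝ) := by exact_mod_cast h1
    _ = ∏ i, |(x i : ℝ)| := by
        push_cast
        exact Finset.prod_congr rfl fun i _ => by rw [Nat.cast_natAbs]; simp
    _ ≤ ∏ _i : Fin 4, Real.exp L := Finset.prod_le_prod (fun i _ => abs_nonneg _) fun i _ => h i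
    _ = Real.exp (4 * L) := by
        rw [Finset.prod_const, Finset.card_univ, Fintype.card_fin, ← Real.exp_nat_mul]
        norm_num

/-- counting by codes `(r, f)` -/
theorem codes (hCN : S_CN) (M : ℕ) (ε : ℝ) (hε : 0 < ε) : ∃ D : ℝ, 0 < D ∧
    ∀ (ι : Type) (_ : DecidableEq ι) (E : Finset ι) (L c K : ℝ) (r : ι → ℕ) (f : ι → Fin M → ℤ),
      0 ≤ L → 0 ≤ K →
      (∀ x ∈ E, r x ≠ 0 ∧ (r x : ℝ) ≤ Real.exp c ∧ (r x : ℝ) ≤ 16 * Real.exp (9 * L) ∧
        ∀ m, f x m ≠ 0 ∧ |(f x m : ℝ)| ≤ Real.exp L ∧ ∀ p : ℕ, p.Prime → (p : ℤ) ∣ f x m → p ∣ r x) →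
      (∀ x ∈ E, ((E.filter (fun y => r y = r x ∧ f y = f x)).card : ℝ) ≤ K) →
      (E.card : ℝ) ≤ D * Real.exp (c + ε * L) * K := by
  obtain ⟨D, hD, hC⟩ := hCN (ε / (M + 1)) (by positivity)
  refine ⟨D ^ M, by positivity, fun ι _ E L c K r f hL hK hE hfib => ?_⟩
  have h1 : E.card = ∑ n ∈ Finset.Icc 1 ⌊Real.exp c⌋₊, (E.filter (fun y => r y = n)).card := by
    apply Finset.card_eq_sum_card_fiberwise
    intro x hx
    have := hE x hx
    exact Finset.mem_coe.2 (Finset.mem_Icc.2 ⟨Nat.one_le_iff_ne_zero.2 this.1, Nat.le_floor this.2.1⟩)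
  have h2 : ∀ n ∈ Finset.Icc 1 ⌊Real.exp c⌋₊, ((E.filter (fun y => r y = n)).card : ℝ) ≤
      (D * Real.exp (ε / (M + 1) * L)) ^ M * K := by
    intro n hn
    rcases (E.filter (fun y => r y = n)).eq_empty_or_nonempty with h0 | ⟨x₀, hx₀⟩
    · rw [h0, Finset.card_empty, Nat.cast_zero]; positivity
    rw [Finset.mem_filter] at hx₀
    have hn0 := (hE x₀ hx₀.1)
    rw [hx₀.2] at hn0
    have hA : ∀ m : Fin M, (((E.filter (fun y => r y = n)).image (fun y => f y m)).card : ℝ) ≤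
        D * Real.exp (ε / (M + 1) * L) := by
      intro m
      refine hC L n _ hL hn0.1 hn0.2.2.1 ?_
      intro a ha
      obtain ⟨y, hy, rfl⟩ := Finset.mem_image.1 ha
      rw [Finset.mem_filter] at hy
      have := (hE y hy.1).2.2.2 m
      rw [hy.2] at this
      exact this
    have h3 : (E.filter (fun y => r y = n)).card ≤
        ∑ g ∈ Fintype.piFinset (fun m : Fin M => (E.filter (fun y => r y = n)).image (fun y => f y m)),
          ((E.filter (fun y => r y = n)).filter (fun y => f y = g)).card := by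
      apply (Finset.card_eq_sum_card_fiberwise _).le
      intro x hx
      exact Finset.mem_coe.2 (Fintype.mem_piFinset.2 fun m => Finset.mem_image_of_mem _ hx)
    have h4 : ∀ g ∈ Fintype.piFinset
        (fun m : Fin M => (E.filter (fun y => r y = n)).image (fun y => f y m)),
        (((E.filter (fun y => r y = n)).filter (fun y => f y = g)).card : ℝ) ≤ K := by
      intro g _
      rcases ((E.filter (fun y => r y = n)).filter (fun y => f y = g)).eq_empty_or_nonempty with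
        h0 | ⟨y₀, hy₀⟩
      · rw [h0, Finset.card_empty, Nat.cast_zero]; exact hK
      rw [Finset.mem_filter, Finset.mem_filter] at hy₀
      have := hfib y₀ hy₀.1.1
      rw [Finset.filter_filter]
      simpa only [hy₀.1.2, hy₀.2] using this
    calc ((E.filter (fun y => r y = n)).card : ℝ) ≤ ((∑ g ∈ Fintype.piFinset
          (fun m : Fin M => (E.filter (fun y => r y = n)).image (fun y => f y m)),
          ((E.filter (fun y => r y = n)).filter (fun y => f y = g)).card : ℕ) : ℝ) := by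
          exact_mod_cast h3
      _ ≤ ∑ g ∈ Fintype.piFinset
          (fun m : Fin M => (E.filter (fun y => r y = n)).image (fun y => f y m)), K := by
          push_cast
          exact Finset.sum_le_sum h4
      _ = (∏ m : Fin M, (((E.filter (fun y => r y = n)).image (fun y => f y m)).card : ℝ)) * K := by
          rw [Finset.sum_const, nsmul_eq_mul, Fintype.card_piFinset]
          push_cast
          rfl
      _ ≤ (∏ _m : Fin M, (D * Real.exp (ε / (M + 1) * L))) * K := by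
          gcongr with m _
          exact hA m
      _ = _ := by rw [Finset.prod_const, Finset.card_univ, Fintype.card_fin]
  have h5 : (E.card : ℝ) ≤ Real.exp c * ((D * Real.exp (ε / (M + 1) * L)) ^ M * K) := by
    rw [h1]
    push_cast
    refine (Finset.sum_le_sum h2).trans ?_
    rw [Finset.sum_const, nsmul_eq_mul, Nat.card_Icc, Nat.add_sub_cancel]
    gcongr
    exact Nat.floor_le (Real.exp_pos c).le
  refine h5.trans ?_
  have h6 : Real.exp (ε / (M + 1) * L) ^ M ≤ Real.exp (ε * L) := by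
    rw [← Real.exp_nat_mul]
    apply Real.exp_le_exp.2
    have : (M : ℝ) * (ε / (M + 1) * L) = (M / (M + 1)) * (ε * L) := by ring
    rw [this]
    have h7 : (M : ℝ) / (M + 1) ≤ 1 := by
      rw [div_le_one (by positivity)]; linarith
    have h8 : 0 ≤ ε * L := by positivity
    nlinarith
  rw [mul_pow, Real.exp_add]
  calc Real.exp c * (D ^ M * Real.exp (ε / (M + 1) * L) ^ M * K) ≤
      Real.exp c * (D ^ M * Real.exp (ε * L) * K) := by gcongr
    _ = _ := by ring

end Pool.Agent.Helper29.Q
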